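import Pool.Agent.H.MP_b91784_pr.A

/-! Random convex sets with arbitrarily small common mean whose averages stay large. -/

open MeasureTheory ProbabilityTheory Set Metric
open scoped Pointwise BoundedContinuousFunction

namespace Pool.Agent.Results.MP_b91784_pr.Small

variable {X : Type} [NormedAddCommGroup X] [NormedSpace ℝ X]

/-- B-convexity -/
def BConvex (X : Type) [NormedAddCommGroup X] [NormedSpace ℝ X] : Prop :=
  ∃ k : ℕ, 2 ≤ k ∧ ∃ η > (0 : ℝ), ∀ x : Fin k → X, (∀ i, ‖x i‖ ≤ 1) →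
    ∃ s : Fin k → ℝ, (∀ i, s i = 1 ∨ s i = -1) ∧ ‖∑ i, s i • x i‖ ≤ k * (1 - η)

/-- `z` is the support function of `A` on the dual unit sphere -/
def Rep (A : Set X) (z : sphere (0 : StrongDual ℝ X) 1 →ᵇ ℝ) : Prop :=
  ∀ f : sphere (0 : StrongDual ℝ X) 1, IsLUB (f.1 '' A) (z f)

/-- independent random convex subsets of the unit ball with common expectation `U` -/
def Sq {Ω : Type} [MeasurableSpace Ω] (P : Measure Ω) (U : Set X) (Ψ : ℕ → Ω → Set X) : Prop :=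
  (U.Nonempty ∧ Convex ℝ U ∧ Bornology.IsBounded U) ∧
  (∀ n ω, (Ψ n ω).Nonempty ∧ Convex ℝ (Ψ n ω) ∧ Ψ n ω ⊆ closedBall 0 1) ∧
  ∃ (r : sphere (0 : StrongDual ℝ X) 1 →ᵇ ℝ) (R : ℕ → Ω → sphere (0 : StrongDual ℝ X) 1 →ᵇ ℝ),
    Rep U r ∧ (∀ n ω, Rep (Ψ n ω) (R n ω)) ∧
    (∀ n, @Measurable _ _ _ (borel _) (R n) ∧ StronglyMeasurable (R n) ∧ Integrable (R n) P ∧ ∫ ω, R n ω ∂P = r) ∧
    iIndepFun (m := fun _ => borel _) R P

theorem result : ∃ (X : Type) (_ : NormedAddCommGroup X) (_ : NormedSpace ℝ X), CompleteSpace X ∧ BConvex X ∧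
    ∀ δ > (0 : ℝ), ∃ (Ω : Type) (_ : MeasurableSpace Ω) (P : Measure Ω) (_ : IsProbabilityMeasure P)
      (U : Set X) (Ψ : ℕ → Ω → Set X), Sq P U Ψ ∧ U ⊆ closedBall 0 δ ∧
        ∀ ω (n : ℕ), 1 ≤ n → ∃ a ∈ (n : ℝ)⁻¹ • ∑ i ∈ Finset.range n, Ψ i ω, 1 / 4 ≤ ‖a‖ := by
  refine ⟨Pool.Agent.H.MP_b91784_pr.E, inferInstance, inferInstance, inferInstance, Pool.Agent.H.MP_b91784_pr.bc,
    fun δ h => ?_⟩
  obtain ⟨Ω, _, P, _, U, Ψ, a, -, b⟩ := Pool.Agent.H.MP_b91784_pr.main (δ := δ) h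
  exact ⟨Ω, _, P, ‹_›, U, Ψ, a, b⟩

end Pool.Agent.Results.MP_b91784_pr.Small
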